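import Mathlib
import Pool.Agent.L7h18.BP.Stm

/-!
# Project EV (helper88): primes and almost primes with EVERY even distance and EVERY even sum between consecutive squares

Uses `S_BVP` (project BP of helper18: Bombieri-Vinogradov in windows shorter than the square root, with a power
saving exceptional set, uniformly in the residue classes), `S_POOR`. Goals: (1) MP_5f6ee5_nt: for all but
`X^(1-δ)` of the `k ≤ X`, for EVERY even `d ≤ 8 k - k^(1-δ)` there are `≥ c (8 k - d)/(log k)²` primes `p` with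
`(2k-1)² < p < p + d < (2k+1)²` and `p + d` an almost prime; (2) MP_e94e4b_nt: the same for all even sums, in every window, with
`X^(1-δ)` exceptions (replaces `AlmostAllN`).
-/

set_option autoImplicit false

namespace Pool.Agent.L7h88.EV

open Finset Filter
open Pool.Agent.L7h88.BW (th S_POOR)
open Pool.Agent.L7h18.BP (Gc S_BVP)

open Classical in
/-- the primes `p` of the window `e^u < p ≤ e^{u+κ}` for which `E - p` has no prime factor `≤ e^{ζY}` -/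
noncomputable def RW (ζ Y κ u : ℝ) (E : ℤ) : Finset ℕ :=
  (Icc 1 ⌊Real.exp (u + κ)⌋₊).filter (fun p : ℕ => p.Prime ∧ u < Real.log p ∧
    ∀ l : ℕ, l.Prime → (l : ℤ) ∣ E - p → Real.exp (ζ * Y) < l)

/-- **SIVX** (no hypotheses; adapt `s_SIVE` of `Pool/Agent/L7h76/BW/Sive.lean`): the sieve in one window, for an integer `E` of either sign, with the level `e^{δY}` instead of `e^{Y/100}`. Proof. As for
SIVE: `Pool.Agent.Y882.wts` with `τ' = δ/2`, `τ = 2δ/5`, `ζ₀ = δ/6` (or similar) and the natural number `x = ⌈e^{Y+3}⌉`: weights `c d`, `|c d| ≤ 5 log x`, supported on squarefree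
`d ≤ x^{δ/2} ≤ e^{δY}`. For a prime `p` of the window, `m = |E - p|` is not `0` (`E` even, `p` odd) and `≤ x`: `∑_{d | m} c d ≤ 1` if `m` has no prime factor `< x^{ζ₀}`, and `≤ 0` otherwise. Hence
`(Y + 1) #{good p} ≥ ∑_p log p ∑_{d | E - p} c d = ∑_d c d th u κ d (E % d)`. If `(d, E) > 1` then `th u κ d (E % d) = 0` (a prime dividing `d` and `E` and hence `p` would be `p > e^{Y-1} > d`). So this is
`≥ th u κ 1 0 ∑_{(d, E) = 1} c d/φ(d) - 5 log x ∑_{d ≤ Gc δ Y, (d,E)=1} |th u κ d (E % d) - th u κ 1 0/φ(d)| ≥ c₀ κ e^Y · c / log x - 5 (Y + 4) κ e^Y / Y^4`. -/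
def S_SIVX : Prop := ∀ δ : ℝ, 0 < δ → δ ≤ 1 / 100 → ∃ ζ : ℝ, 0 < ζ ∧ ∀ c₀ : ℝ, 0 < c₀ → ∃ c Y₀ : ℝ, 0 < c ∧
  ∀ Y : ℝ, Y₀ ≤ Y → ∀ (κ u : ℝ) (E : ℤ),
  Real.exp (-(0.504 * Y)) ≤ κ → κ ≤ Real.exp (-(Y / 4)) → Y - 1 / 4 ≤ u → u + κ ≤ Y + 1 / 4 → Even E →
  (|E| : ℝ) ≤ Real.exp (Y + 2) → c₀ * κ * Real.exp Y ≤ th u κ 1 0 →
  ∑ q ∈ (Icc 1 (Gc δ Y)).filter (fun q => q.Coprime E.natAbs),
    |th u κ q (E % q).toNat - th u κ 1 0 / (Nat.totient q : ℝ)| ≤ κ * Real.exp Y / Y ^ 4 →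
  c * κ * Real.exp Y / Y ^ 2 ≤ ((RW ζ Y κ u E).card : ℝ)

open Classical in
/-- **WIN** (`S_BVP → S_POOR → S_SIVX → S_WIN`): all windows but few are good for all `E` at once. Proof. `δ, η` from S_BVP (apply it with `A = 4`), `c', η'` from S_POOR, `ζ` from S_SIVX (for `δ`, `c₀ = c'`). Take `η₀ = min η (η'/1)` (so `η₀ ≤ 0.004`)
and `κ = e^{-(1/2 + η₀) Y}`, `t` from S_BVP, `u_j = Y - 1/4 + t + j κ`. Let `j` be outside the exceptional set of S_BVP and of S_POOR, and let `E` be even, `|E| ≤ e^{Y+2}`. The function `a q = (E % q).toNat` for `q ≥ 1` coprime to `E`, otherwise `1`, satisfies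
`(a q).Coprime q`; so the sum over the `q` coprime to `E` in S_SIVX is at most `κ e^Y/Y^4`. The number of the exceptional `j` is at most `e^{-ηY}/κ + e^{0.306 Y} ≤ e^{-δ₁ Y}/κ` for `δ₁ = min η 0.1 / 2`. -/
def S_WIN : Prop := ∃ ζ c η δ₁ Y₀ : ℝ, 0 < ζ ∧ 0 < c ∧ 0 < η ∧ η ≤ 0.004 ∧ 0 < δ₁ ∧ ∀ Y κ : ℝ, Y₀ ≤ Y → κ = Real.exp (-((1 / 2 + η) * Y)) →
  ∃ t : ℝ, 0 ≤ t ∧ t ≤ κ ∧ (((range (⌊1 / (2 * κ)⌋₊ - 1)).filter (fun j : ℕ => ∃ E : ℤ, Even E ∧ (|E| : ℝ) ≤ Real.exp (Y + 2) ∧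
    ((RW ζ Y κ (Y - 1 / 4 + t + j * κ) E).card : ℝ) < c * κ * Real.exp Y / Y ^ 2)).card : ℝ) ≤ Real.exp (-(δ₁ * Y)) / κ

open Classical in
/-- the primes `p` with `a < p < b` for which all prime factors of `E - p` are larger than `N^ζ` -/
noncomputable def GP (ζ : ℝ) (N : ℕ) (a b : ℝ) (E : ℤ) : Finset ℕ :=
  (Icc 1 ((N + 1) ^ 2)).filter (fun p : ℕ => p.Prime ∧ a < p ∧ (p : ℝ) < b ∧
    ∀ l : ℕ, l.Prime → (l : ℤ) ∣ E - p → (N : ℝ) ^ ζ < l)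

open Classical in
/-- **FINW** (`S_WIN → S_FINW`; compare with `Pool/Agent/L7h88/BW/Fin{1,2,3,4}.lean`, which have useful lemmas: `grid`, `Nj`, `light`, `blk`). Proof. First the `N` with `Y/2 - 1/10 ≤ log N ≤ Y/2 + 1/10`, `Y` large. `κ`, `t`, `u_j` as in S_WIN, `B` the set of the exceptional `j`. Call `N` heavy if
at least `e^{(η - δ₂) Y}` of the `j ∈ B` have `(N - 1)² ≤ e^{u_j} ≤ (N + 2)²`; every `j` is counted for at most `4` of the `N`, so the number of the heavy `N` is at most `4 e^{-δ₁Y} κ⁻¹ e^{-(η - δ₂) Y} = 4 e^{(1/2 - δ₁ + δ₂) Y} ≤ e^{(1/2 - δ₂) Y}` with `δ₂ = min (δ₁/3) (η/3)`.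
Let `N` be not heavy, and `N² ≤ a`, `b ≤ (N+1)²`, `b - a ≥ N^{1-δ}`, `δ = δ₂/2`. The interval `(log a, log b)` has length `≥ (b - a)/(2 N²)`, so (`grid`) it contains at least `(b - a)/(2 N² κ) - 2` intervals `[u_j, u_j + κ]`; this is `≥ 4 e^{(η - δ₂) Y}` (as `(b - a)/N² ≥ N^{-1-δ} ≥ e^{-(1/2 + δ/2) Y} / 4`), so
at least `(b - a)/(4 N² κ)` of these `j` are not in `B`. For these `j` and even `E`, `|E| ≤ 8 N² ≤ e^{Y+2}·…` (`8 N² ≤ 8 e^{Y + 1/5}`; so use `|E| ≤ 4 N² + 4 N + 4 ≤ e^{Y+2}`), the sets `RW ζ Y κ u_j E` are disjoint subsets of `GP ζ' N a b E` (`ζ' = ζ`: `N^{ζ} ≤ e^{ζY}`), in total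
`≥ (b - a)/(4 N² κ) · c κ e^Y/Y² ≥ c' (b - a)/(log N)²`. Finally sum over the blocks `Y = 2 log X - i/5` (the `N ≤ X^{1/2}` are trivially few) as in `Fin4`. -/
def S_FINW : Prop := ∃ ζ c δ : ℝ, 0 < ζ ∧ 0 < c ∧ 0 < δ ∧ δ ≤ 1 / 10 ∧ ∃ X₀ : ℕ, ∀ X : ℕ, X₀ ≤ X →
  (((Icc 2 X).filter (fun N : ℕ => ¬ ∀ (a b : ℝ) (E : ℤ), (N : ℝ) ^ 2 ≤ a → b ≤ ((N : ℝ) + 1) ^ 2 →
    (N : ℝ) ^ (1 - δ) ≤ b - a → Even E → (|E| : ℝ) ≤ 4 * (N : ℝ) ^ 2 + 4 * N + 4 →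
    c * (b - a) / Real.log N ^ 2 ≤ ((GP ζ N a b E).card : ℝ))).card : ℝ) ≤ (X : ℝ) ^ (1 - δ)

/-! ### the two theorems -/

open Classical in
/-- the primes `p` with `(2k-1)² < p`, `p + d < (2k+1)²` for which `p + d` has at most `r` prime factors (with multiplicity), all of them larger than `k^δ` -/
noncomputable def dist (r : ℕ) (δ : ℝ) (k d : ℕ) : Finset ℕ :=
  (Icc 1 ((2 * k + 1) ^ 2)).filter (fun p : ℕ => p.Prime ∧ (2 * k - 1) ^ 2 < p ∧ p + d < (2 * k + 1) ^ 2 ∧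
    (p + d).primeFactorsList.length ≤ r ∧ ∀ l : ℕ, l.Prime → l ∣ p + d → (k : ℝ) ^ δ < l)

open Classical in
/-- **DST** (`S_FINW → S_DST`), for MP_5f6ee5_nt. Proof. Apply S_FINW to `N = 2k - 1` (all but `(2X)^{1-δ}` of the `k ≤ X`), `E = -d`, `a = N² + 0`, `b = min ((N+1)², (2k+1)² - d)`. `(2k+1)² - N² = 8 k`; if `d ≤ 4 k - 1` then `b = (2k)²`, `b - a = 4 k - 1 ≥ (8k - d)/4`; otherwise `b - a = 8k - d`. All prime factors of `p + d < (2k+1)²` are `> N^ζ ≥ k^{ζ}`, so there are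
at most `r = ⌈4/ζ⌉` of them (`pow_len` in `Pool/Agent/L7h88/BW/Fin1.lean`). The `δ` of the statement is smaller than `ζ` and the `δ` of S_FINW. -/
def S_DST : Prop := ∃ (r : ℕ) (c δ : ℝ), 0 < c ∧ 0 < δ ∧ ∃ X₀ : ℕ, ∀ X : ℕ, X₀ ≤ X →
  (((Icc 1 X).filter (fun k : ℕ => ¬ ∀ d : ℕ, 2 ≤ d → Even d → (d : ℝ) ≤ 8 * k - (k : ℝ) ^ (1 - δ) →
    c * (8 * k - d) / Real.log k ^ 2 ≤ ((dist r δ k d).card : ℝ))).card : ℝ) ≤ (X : ℝ) ^ (1 - δ)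

open Classical in
/-- the `k`, `2 ≤ k ≤ 2 N`, in the window `[2 α N, 2 β N]` such that `N² + k + 1` is a prime and `(N+1)² - k + 2 h` has at most `r` prime factors (with multiplicity), all of them larger than `N^δ` -/
noncomputable def sums (r : ℕ) (δ : ℝ) (N : ℕ) (h : ℤ) (α β : ℝ) : Finset ℕ :=
  (Icc 2 (2 * N)).filter (fun k : ℕ => 2 * α * N ≤ k ∧ (k : ℝ) ≤ 2 * β * N ∧ (N ^ 2 + k + 1).Prime ∧
    ((((N : ℤ) + 1) ^ 2 - k + 2 * h).natAbs).primeFactorsList.length ≤ r ∧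
    ∀ l : ℕ, l.Prime → (l : ℤ) ∣ ((N : ℤ) + 1) ^ 2 - k + 2 * h → (N : ℝ) ^ δ < l)

open Classical in
/-- **SUM** (`S_FINW → S_SUM`), for MP_e94e4b_nt. Proof. Apply S_FINW with `E = N² + (N + 1)² + 1 + 2 h = 2 N² + 2 N + 2 + 2 h` (even; `|E| ≤ 4 N² + 4 N + 4` for `|h| ≤ N²`), `p = N² + k + 1`, `E - p = (N+1)² - k + 2 h`; `a = N² + 2 α N + 3`, `b = N² + 2 β N`: `p ∈ (a, b)` gives `k = p - N² - 1 ∈ (2 α N + 2, 2 β N - 1)`.
`b - a ≥ (β - α) N ≥ N^{1 - δ}` when `β - α ≥ N^{-δ'}` (`δ' < δ`). `|E - p| ≤ 8 N²` has at most `r = ⌈4/ζ⌉` prime factors `> N^ζ` (`E - p ≠ 0`, because the condition on the prime factors excludes `0`). -/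
def S_SUM : Prop := ∃ (r : ℕ) (c δ : ℝ), 0 < c ∧ 0 < δ ∧ ∃ X₀ : ℕ, ∀ X : ℕ, X₀ ≤ X →
  (((Icc 2 X).filter (fun N : ℕ => ¬ ∀ (h : ℤ) (α β : ℝ), |h| ≤ (N : ℤ) ^ 2 → 0 ≤ α → β ≤ 1 → (N : ℝ) ^ (-δ) ≤ β - α →
    c * ((β - α) * (N / Real.log N ^ 2)) ≤ ((sums r δ N h α β).card : ℝ))).card : ℝ) ≤ (X : ℝ) ^ (1 - δ)

end Pool.Agent.L7h88.EV
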