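import Mathlib
import Pool.Agent.L7h88.EV.Stm
import Pool.Agent.L7h29.EV.Sivx
import Pool.Agent.L7h29.EV.Win
import Pool.Agent.L7h29.EV.Finw
import Pool.Agent.L7h29.EV.Dst
import Pool.Agent.L7h29.EV.Sum
import Pool.Agent.L7h18.BP.All
import Pool.Agent.L7h18.BW.Poor

/-! Assembly of project EV. -/

set_option autoImplicit false

namespace Pool.Agent.L7h88.EV

theorem win : S_WIN := Pool.Agent.L7h29.EV.s_WIN Pool.Agent.L7h18.BP.bvp Pool.Agent.L7h18.BW.s_POOR Pool.Agent.L7h29.EV.s_SIVX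

theorem finw : S_FINW := Pool.Agent.L7h29.EV.s_FINW win

theorem dst : S_DST := Pool.Agent.L7h29.EV.s_DST finw

theorem sum : S_SUM := Pool.Agent.L7h29.EV.s_SUM finw

end Pool.Agent.L7h88.EV
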